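import Pool.Agent.H596Q.Mod

set_option autoImplicit false
set_option linter.all false

/-!
# The translation module of a polynomial function on a `p`-group has few generators

If `G` has order `p ^ n` and all `(d + 1)`-fold differences of `f : G → A` vanish, then the
translates of `f` generate a group with at most `(n + d).choose n` generators.
-/

namespace Pool.Agent.Y42.Cov

open Pool.Agent.H596Q

section

variable {G A : Type} [Group G] [AddCommGroup A]

/-- `U` is stable under translations. -/
def Stab (U : AddSubgroup (G → A)) : Prop := ∀ (g : G) (v : G → A), v ∈ U → tr g v ∈ U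

/-- all `d`-fold differences of `f` lie in `U` -/
def PDU (U : AddSubgroup (G → A)) : ℕ → (G → A) → Prop
  | 0, f => f ∈ U
  | d + 1, f => ∀ g, PDU U d (tr g f - f)

theorem PDU_mono {U U' : AddSubgroup (G → A)} (h : U ≤ U') (d : ℕ) :
    ∀ f : G → A, PDU U d f → PDU U' d f := by
  induction d with
  | zero => intro f hf; exact h hf
  | succ d ih => intro f hf g; exact ih _ (hf g)

theorem PDU_bot (d : ℕ) : ∀ f : G → A, PD d f → PDU ⊥ d f := by
  induction d with
  | zero => intro f hf; exact AddSubgroup.mem_bot.2 hf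
  | succ d ih => intro f hf g; exact ih _ (hf g)

theorem stab_Wt (f : G → A) : Stab (Wt f) := fun g _ hv => Wt_stable f g hv

theorem stab_bot : Stab (⊥ : AddSubgroup (G → A)) := by
  intro g v hv
  rw [AddSubgroup.mem_bot] at hv ⊢
  rw [hv, map_zero]

theorem stab_sup {U V : AddSubgroup (G → A)} (hU : Stab U) (hV : Stab V) : Stab (U ⊔ V) := by
  intro g v hv
  obtain ⟨a, ha, b, hb, rfl⟩ := AddSubgroup.mem_sup.1 hv
  rw [map_add]
  exact AddSubgroup.add_mem_sup (hU g a ha) (hV g b hb)

theorem self_mem_Wt (f : G → A) : f ∈ Wt f := AddSubgroup.subset_closure ⟨1, tr_one f⟩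

theorem tr_mem_Wt (f : G → A) (g : G) : tr g f ∈ Wt f := AddSubgroup.subset_closure ⟨g, rfl⟩

theorem Wt_le {f : G → A} {U : AddSubgroup (G → A)} (hU : Stab U) (h : f ∈ U) : Wt f ≤ U := by
  unfold Wt
  rw [AddSubgroup.closure_le]
  rintro v ⟨g, rfl⟩
  exact hU g f h

theorem tr_pow_sub_mem (z : G) (v : G → A) (k : ℕ) : tr (z ^ k) v - v ∈ Wt (tr z v - v) := by
  induction k with
  | zero => rw [pow_zero, tr_one, sub_self]; exact AddSubgroup.zero_mem _
  | succ k ih =>
    have e : tr (z ^ (k + 1)) v - v = tr (z ^ k) (tr z v - v) + (tr (z ^ k) v - v) := by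
      rw [map_sub, pow_succ, tr_mul]; abel
    rw [e]
    exact AddSubgroup.add_mem _ (tr_mem_Wt _ _) ih

/-- a step down: enlarge a normal subgroup of index `p ^ (j + 1)` -/
theorem exists_step [Finite G] {p j : ℕ} [hp : Fact p.Prime] (N : Subgroup G) [hN : N.Normal]
    (hind : N.index = p ^ (j + 1)) :
    ∃ (N' : Subgroup G) (z : G), N'.Normal ∧ N'.index = p ^ j ∧
      ∀ y ∈ N', ∃ (k : ℕ) (t : G), t ∈ N ∧ y = z ^ k * t := by
  have hcard : Nat.card (G ⧸ N) = p ^ (j + 1) := by rw [← Subgroup.index_eq_card]; exact hind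
  haveI : Finite (G ⧸ N) := inferInstance
  haveI : Nontrivial (G ⧸ N) := by
    rw [← Finite.one_lt_card_iff_nontrivial, hcard]
    exact Nat.one_lt_pow (by omega) hp.out.one_lt
  have hpg : IsPGroup p (G ⧸ N) := IsPGroup.of_card hcard
  haveI hcn : Nontrivial (Subgroup.center (G ⧸ N)) := hpg.center_nontrivial
  have hcp : IsPGroup p (Subgroup.center (G ⧸ N)) := hpg.to_subgroup _
  obtain ⟨m, hm⟩ := IsPGroup.iff_card.1 hcp
  have hm0 : m ≠ 0 := by
    rintro rfl
    rw [pow_zero] at hm
    have := Finite.one_lt_card (α := Subgroup.center (G ⧸ N))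
    omega
  have hdvd : p ∣ Nat.card (Subgroup.center (G ⧸ N)) := by
    rw [hm]; exact dvd_pow_self p hm0
  obtain ⟨x, hx⟩ := exists_prime_orderOf_dvd_card' p hdvd
  have hx' : orderOf (x : G ⧸ N) = p := by rw [Subgroup.orderOf_coe]; exact hx
  obtain ⟨z, hz⟩ := QuotientGroup.mk'_surjective N (x : G ⧸ N)
  have hzle : Subgroup.zpowers (x : G ⧸ N) ≤ Subgroup.center (G ⧸ N) := by
    rw [Subgroup.zpowers_le]; exact x.2
  haveI hzn : (Subgroup.zpowers (x : G ⧸ N)).Normal := by
    constructor
    intro a ha g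
    have h1 := (Subgroup.mem_center_iff.1 (hzle ha)) g
    rw [h1, mul_inv_cancel_right]
    exact ha
  refine ⟨(Subgroup.zpowers (x : G ⧸ N)).comap (QuotientGroup.mk' N), z, inferInstance, ?_, ?_⟩
  · rw [Subgroup.index_comap_of_surjective _ (QuotientGroup.mk'_surjective N)]
    have h2 := Subgroup.card_mul_index (Subgroup.zpowers (x : G ⧸ N))
    rw [Nat.card_zpowers, hx', hcard, pow_succ'] at h2
    exact Nat.eq_of_mul_eq_mul_left hp.out.pos h2
  · intro y hy
    have h3 : QuotientGroup.mk' N y ∈ Subgroup.zpowers (x : G ⧸ N) := hy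
    rw [← mem_powers_iff_mem_zpowers] at h3
    obtain ⟨k, hk⟩ := h3
    refine ⟨k, (z ^ k)⁻¹ * y, ?_, by group⟩
    rw [← QuotientGroup.eq]
    have h4 : (QuotientGroup.mk' N) (z ^ k) = (QuotientGroup.mk' N) y := by
      rw [map_pow, hz]; exact hk
    exact h4

theorem few_gens [Finite G] {p : ℕ} [hp : Fact p.Prime] (j : ℕ) : ∀ (d : ℕ) (N : Subgroup G),
    N.Normal → N.index = p ^ j → ∀ (U : AddSubgroup (G → A)), Stab U → ∀ v : G → A,
    (∀ y ∈ N, ∀ g : G, tr y (tr g v) - tr g v ∈ U) → PDU U (d + 1) v →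
    ∃ B : Finset (G → A), B.card ≤ (j + d).choose j ∧ (∀ b ∈ B, b ∈ Wt v) ∧
      Wt v ≤ AddSubgroup.closure (B : Set (G → A)) ⊔ U := by
  classical
  -- the case in which everything acts trivially modulo `U`
  have base : ∀ (U : AddSubgroup (G → A)) (v : G → A), (∀ g : G, tr g v - v ∈ U) →
      Wt v ≤ AddSubgroup.closure (({v} : Finset (G → A)) : Set (G → A)) ⊔ U := by
    intro U v h
    unfold Wt
    rw [AddSubgroup.closure_le]
    rintro w ⟨g, rfl⟩
    have e : tr g v = v + (tr g v - v) := by abel
    show tr g v ∈ _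
    rw [e]
    exact AddSubgroup.add_mem_sup (AddSubgroup.subset_closure (by simp)) (h g)
  induction j with
  | zero =>
    intro d N hN hind U hU v hv hPD
    rw [pow_zero, Subgroup.index_eq_one] at hind
    refine ⟨{v}, by simp, by simpa using self_mem_Wt v, base U v ?_⟩
    intro g
    have := hv g (by rw [hind]; exact Subgroup.mem_top g) 1
    rwa [tr_one] at this
  | succ j ihj =>
    intro d
    induction d with
    | zero =>
      intro N hN hind U hU v hv hPD
      exact ⟨{v}, by simp, by simpa using self_mem_Wt v, base U v hPD⟩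
    | succ d ihd =>
      intro N hN hind U hU v hv hPD
      obtain ⟨N', z, hN', hind', hz⟩ := exists_step (p := p) (j := j) N hind
      have hUW : Stab (U ⊔ Wt (tr z v - v)) := stab_sup hU (stab_Wt _)
      -- the group `N'` acts trivially modulo `U ⊔ Wt (tr z v - v)`
      have key : ∀ y ∈ N', tr y v - v ∈ U ⊔ Wt (tr z v - v) := by
        intro y hy
        obtain ⟨k, t, ht, rfl⟩ := hz y hy
        have e : tr (z ^ k * t) v - v = tr (z ^ k) (tr t v - v) + (tr (z ^ k) v - v) := by
          rw [map_sub, tr_mul]; abel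
        rw [e]
        have h1 := hv t ht 1
        rw [tr_one] at h1
        exact AddSubgroup.add_mem_sup (hU _ _ h1) (tr_pow_sub_mem z v k)
      have hv' : ∀ y ∈ N', ∀ g : G, tr y (tr g v) - tr g v ∈ U ⊔ Wt (tr z v - v) := by
        intro y hy g
        have h1 : g⁻¹ * y * g ∈ N' := by
          have := hN'.conj_mem y hy g⁻¹
          rwa [inv_inv] at this
        have e : tr y (tr g v) - tr g v = tr g (tr (g⁻¹ * y * g) v - v) := by
          rw [map_sub, ← tr_mul, ← tr_mul]
          congr 2
          group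
        rw [e]
        exact hUW _ _ (key _ h1)
      obtain ⟨B, hB, hBW, hWB⟩ := ihj (d + 1) N' hN' hind' _ hUW v hv'
        (PDU_mono le_sup_left _ _ hPD)
      have hu : ∀ y ∈ N, ∀ g : G, tr y (tr g (tr z v - v)) - tr g (tr z v - v) ∈ U := by
        intro y hy g
        have e : tr y (tr g (tr z v - v)) - tr g (tr z v - v) =
            (tr y (tr (g * z) v) - tr (g * z) v) - (tr y (tr g v) - tr g v) := by
          rw [map_sub, map_sub, tr_mul]; abel
        rw [e]
        exact U.sub_mem (hv y hy _) (hv y hy _)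
      obtain ⟨B₁, hB₁, hBW₁, hWB₁⟩ := ihd N hN hind U hU (tr z v - v) hu (hPD z)
      refine ⟨B ∪ B₁, ?_, ?_, ?_⟩
      · refine (Finset.card_union_le _ _).trans ?_
        have e : (j + 1 + (d + 1)).choose (j + 1) =
            (j + (d + 1)).choose j + (j + 1 + d).choose (j + 1) := by
          have h1 : j + 1 + (d + 1) = (j + 1 + d) + 1 := by omega
          have h2 : j + (d + 1) = j + 1 + d := by omega
          rw [h1, h2, Nat.choose_succ_succ]
        rw [e]
        omega
      · intro b hb
        rcases Finset.mem_union.1 hb with hb | hb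
        · exact hBW b hb
        · have h1 : Wt (tr z v - v) ≤ Wt v :=
            Wt_le (stab_Wt v) (AddSubgroup.sub_mem _ (tr_mem_Wt v z) (self_mem_Wt v))
          exact h1 (hBW₁ b hb)
      · refine hWB.trans ?_
        rw [Finset.coe_union, AddSubgroup.closure_union]
        refine sup_le (le_sup_left.trans le_sup_left) (sup_le le_sup_right (hWB₁.trans ?_))
        exact sup_le (le_sup_right.trans le_sup_left) le_sup_right

/-- The translates of a polynomial function of degree at most `d` on a group of order `p ^ n`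
generate a group with at most `(n + d).choose n` generators. -/
theorem few_gens' [Finite G] {p n d : ℕ} [hp : Fact p.Prime] (hG : Nat.card G = p ^ n)
    (v : G → A) (hv : PD (d + 1) v) :
    ∃ B : Finset (G → A), B.card ≤ (n + d).choose n ∧
      AddSubgroup.closure (B : Set (G → A)) = Wt v := by
  obtain ⟨B, h1, h2, h3⟩ := few_gens (p := p) (A := A) n d (⊥ : Subgroup G) inferInstance
    (by rw [Subgroup.index_bot]; exact hG) ⊥ stab_bot v (by
      intro y hy g
      rw [Subgroup.mem_bot] at hy
      rw [hy, tr_one, sub_self]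
      exact AddSubgroup.zero_mem _) (PDU_bot _ _ hv)
  refine ⟨B, h1, le_antisymm ?_ ?_⟩
  · rw [AddSubgroup.closure_le]
    exact h2
  · rwa [sup_bot_eq] at h3

end

end Pool.Agent.Y42.Cov
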