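import Pool.Agent.H596Q.Mod

set_option autoImplicit false
set_option linter.all false

/-!
# One abelian group whose automorphism group contains all automorphism groups

Every abelian group with at most `M` generators that is killed by `p ^ n` is a direct summand of
the group `BB p n M`, the product of `M` copies of each of the groups `ℤ/p, ℤ/p², …, ℤ/p^n`.
-/

namespace Pool.Agent.Y42.Cov

open Pool.Agent.H596Q

/-- the abelian group -/
abbrev BB (p n M : ℕ) : Type := ∀ x : Fin n × Fin M, ZMod (p ^ ((x.1 : ℕ) + 1))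

section

variable {W B : Type} [AddCommGroup W] [AddCommGroup B]

/-- an automorphism of a direct summand extends -/
def ext (E : W →+ B) (R : B →+ W) (h : ∀ w, R (E w) = w) : Au W →* Au B :=
  MonoidHom.mk' (fun σ =>
    { toFun := fun b => b + E (σ (R b) - R b)
      invFun := fun b => b + E (σ.symm (R b) - R b)
      left_inv := fun b => by
        show (b + E (σ (R b) - R b)) + E (σ.symm (R (b + E (σ (R b) - R b))) -
          R (b + E (σ (R b) - R b))) = b
        have e : R (b + E (σ (R b) - R b)) = σ (R b) := by rw [map_add, h]; abel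
        rw [e, σ.symm_apply_apply, add_assoc, ← map_add]
        have e2 : σ (R b) - R b + (R b - σ (R b)) = 0 := by abel
        rw [e2, map_zero, add_zero]
      right_inv := fun b => by
        show (b + E (σ.symm (R b) - R b)) + E (σ (R (b + E (σ.symm (R b) - R b))) -
          R (b + E (σ.symm (R b) - R b))) = b
        have e : R (b + E (σ.symm (R b) - R b)) = σ.symm (R b) := by rw [map_add, h]; abel
        rw [e, σ.apply_symm_apply, add_assoc, ← map_add]
        have e2 : σ.symm (R b) - R b + (R b - σ.symm (R b)) = 0 := by abel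
        rw [e2, map_zero, add_zero]
      map_add' := fun b c => by
        have e : σ (R (b + c)) - R (b + c) = (σ (R b) - R b) + (σ (R c) - R c) := by
          rw [map_add, map_add]; abel
        rw [e, map_add]; abel
      map_smul' := fun m b => by
        have e : σ (R (m • b)) - R (m • b) = m • (σ (R b) - R b) := by
          rw [map_zsmul, map_zsmul, smul_sub]
        rw [e, map_zsmul, eq_intCast, Int.cast_id, smul_add] }) (by
    intro σ τ
    apply LinearEquiv.ext
    intro b
    show b + E (σ (τ (R b)) - R b) = (b + E (τ (R b) - R b)) + E (σ (R (b + E (τ (R b) - R b))) -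
      R (b + E (τ (R b) - R b)))
    have e : R (b + E (τ (R b) - R b)) = τ (R b) := by rw [map_add, h]; abel
    rw [e, add_assoc, ← map_add]
    congr 2
    abel)

theorem ext_apply (E : W →+ B) (R : B →+ W) (h : ∀ w, R (E w) = w) (σ : Au W) (b : B) :
    ext E R h σ b = b + E (σ (R b) - R b) := rfl

theorem ext_injective (E : W →+ B) (R : B →+ W) (h : ∀ w, R (E w) = w) :
    Function.Injective (ext E R h) := by
  intro σ τ hst
  apply LinearEquiv.ext
  intro w
  have h1 : ext E R h σ (E w) = ext E R h τ (E w) := by rw [hst]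
  rw [ext_apply, ext_apply, h] at h1
  have h2 := congrArg R (add_left_cancel h1)
  rw [h, h] at h2
  exact sub_left_inj.1 h2

end

/-- number of cyclic factors and number of generators -/
theorem rank_le {p M : ℕ} [hp : Fact p.Prime] {W ι : Type} [AddCommGroup W] [Fintype ι]
    (m : ι → ℕ) (hm : ∀ i, p ∣ m i) (e : W ≃+ ∀ i, ZMod (m i)) (S : Finset W) (hS : S.card ≤ M)
    (hSt : AddSubgroup.closure (S : Set W) = ⊤) : Fintype.card ι ≤ M := by
  classical
  let π : W →+ (ι → ZMod p) :=
    (Pi.addMonoidHom fun i => (ZMod.castHom (hm i) (ZMod p)).toAddMonoidHom.comp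
      (Pi.evalAddMonoidHom (fun i => ZMod (m i)) i)).comp e.toAddMonoidHom
  have hπ : Function.Surjective π := by
    intro f
    choose g hg using fun i => ZMod.castHom_surjective (hm i) (f i)
    refine ⟨e.symm g, ?_⟩
    funext i
    show ZMod.castHom (hm i) (ZMod p) (e (e.symm g) i) = f i
    rw [e.apply_symm_apply, hg]
  have h1 : (⊤ : AddSubgroup (ι → ZMod p)) ≤
      AddSubgroup.closure ((S.image π : Finset (ι → ZMod p)) : Set (ι → ZMod p)) := by
    rw [Finset.coe_image, ← AddMonoidHom.map_closure, hSt]
    intro f _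
    obtain ⟨w, rfl⟩ := hπ f
    exact ⟨w, AddSubgroup.mem_top w, rfl⟩
  have h2 := (card_closure (X := ι → ZMod p) p hp.out.ne_zero (fun x => by
    funext i
    rw [Pi.smul_apply, nsmul_eq_mul, CharP.cast_eq_zero, zero_mul, Pi.zero_apply]) _ _ h1).2
  rw [AddSubgroup.card_top, Nat.card_fun, Nat.card_zmod, Nat.card_eq_fintype_card] at h2
  exact ((Nat.pow_le_pow_iff_right hp.out.one_lt).1 h2).trans (Finset.card_image_le.trans hS)

/-- every abelian group with at most `M` generators which is killed by `p ^ n` is a direct summand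
of `BB p n M` -/
theorem summand {p n M : ℕ} [hp : Fact p.Prime] {W : Type} [AddCommGroup W] [Finite W]
    (hq : ∀ w : W, p ^ n • w = 0) (S : Finset W) (hS : S.card ≤ M)
    (hSt : AddSubgroup.closure (S : Set W) = ⊤) :
    ∃ (E : W →+ BB p n M) (R : BB p n M →+ W), ∀ w, R (E w) = w := by
  classical
  obtain ⟨ι, hι, m, hm1, ⟨e⟩⟩ := AddCommGroup.equiv_directSum_zmod_of_finite' W
  let e1 : W ≃+ ∀ i, ZMod (m i) := e.trans (DirectSum.addEquivProd _)
  have hdvd : ∀ i, m i ∣ p ^ n := by
    intro i
    have h1 : p ^ n • (Pi.single i 1 : ∀ i, ZMod (m i)) = 0 := by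
      apply e1.symm.injective
      rw [map_nsmul, hq, map_zero]
    have h2 := congrFun h1 i
    rw [Pi.smul_apply, Pi.single_eq_same, Pi.zero_apply, nsmul_eq_mul, mul_one] at h2
    exact (ZMod.natCast_eq_zero_iff _ _).1 h2
  have hex : ∀ i, ∃ a : Fin n, m i = p ^ ((a : ℕ) + 1) := by
    intro i
    obtain ⟨a, ha, hma⟩ := (Nat.dvd_prime_pow hp.out).1 (hdvd i)
    have ha0 : a ≠ 0 := by
      rintro rfl
      have := hm1 i
      rw [hma, pow_zero] at this
      exact lt_irrefl _ this
    refine ⟨⟨a - 1, by omega⟩, ?_⟩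
    rw [hma]
    congr 1
    show a = a - 1 + 1
    omega
  choose a hma using hex
  have hr : Fintype.card ι ≤ M := rank_le (p := p) m (fun i => by
    rw [hma i]; exact dvd_pow_self p (Nat.succ_ne_zero _)) e1 S hS hSt
  obtain ⟨κ⟩ : Nonempty (ι ↪ Fin M) := by
    apply Function.Embedding.nonempty_of_card_le
    rw [Fintype.card_fin]
    exact hr
  have hm : m = fun i => p ^ ((a i : ℕ) + 1) := funext hma
  subst hm
  let k : ι → Fin n × Fin M := fun i => (a i, κ i)
  have hk : Function.Injective k := fun i j h => κ.injective (congrArg Prod.snd h)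
  let E0 : (∀ i, ZMod (p ^ ((a i : ℕ) + 1))) →+ BB p n M :=
    { toFun := fun f => ∑ i, (Pi.single (k i) (f i) : BB p n M)
      map_zero' := by
        apply Finset.sum_eq_zero
        intro i _
        exact Pi.single_zero _
      map_add' := fun f g => by
        rw [← Finset.sum_add_distrib]
        apply Finset.sum_congr rfl
        intro i _
        exact Pi.single_add (k i) _ _ }
  let R0 : BB p n M →+ (∀ i, ZMod (p ^ ((a i : ℕ) + 1))) :=
    { toFun := fun b i => b (k i)
      map_zero' := rfl
      map_add' := fun _ _ => rfl }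
  have hRE : ∀ f, R0 (E0 f) = f := by
    intro f
    funext j
    show (∑ i, (Pi.single (k i) (f i) : BB p n M)) (k j) = f j
    rw [Finset.sum_apply, Finset.sum_eq_single j]
    · exact Pi.single_eq_same (k j) _
    · intro i _ hij
      exact Pi.single_eq_of_ne (fun h => hij (hk h).symm) _
    · intro h
      exact absurd (Finset.mem_univ j) h
  refine ⟨E0.comp e1.toAddMonoidHom, e1.symm.toAddMonoidHom.comp R0, ?_⟩
  intro w
  show e1.symm (R0 (E0 (e1 w))) = w
  rw [hRE, e1.symm_apply_apply]

theorem card_Au (p n M : ℕ) [hp : Fact p.Prime] :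
    Finite (Au (BB p n M)) ∧ Nat.card (Au (BB p n M)) ≤ p ^ (n ^ 3 * M ^ 2) := by
  classical
  let φ : Au (BB p n M) → (Fin n × Fin M → BB p n M) := fun σ x => σ (Pi.single x 1)
  have hφ : Function.Injective φ := by
    intro σ τ h
    have h1 : (σ : BB p n M →ₗ[ℤ] BB p n M).toAddMonoidHom =
        (τ : BB p n M →ₗ[ℤ] BB p n M).toAddMonoidHom := by
      refine AddMonoidHom.functions_ext _ _ _ ?_
      intro j z
      obtain ⟨z, rfl⟩ := ZMod.intCast_surjective z
      have h2 : (Pi.single j (z : ZMod (p ^ ((j.1 : ℕ) + 1))) : BB p n M) = z • Pi.single j 1 := by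
        rw [← Pi.single_smul]
        simp
      rw [h2, map_zsmul, map_zsmul]
      congr 1
      exact congrFun h j
    apply LinearEquiv.ext
    intro v
    exact DFunLike.congr_fun h1 v
  haveI : Finite (BB p n M) := Pi.finite
  have hB : Nat.card (BB p n M) ≤ p ^ (n * (n * M)) := by
    rw [Nat.card_pi]
    calc ∏ x : Fin n × Fin M, Nat.card (ZMod (p ^ ((x.1 : ℕ) + 1)))
        ≤ ∏ x : Fin n × Fin M, p ^ n := by
          refine Finset.prod_le_prod' fun x _ => ?_
          rw [Nat.card_zmod]
          exact Nat.pow_le_pow_right hp.out.pos x.1.2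
      _ = (p ^ n) ^ (n * M) := by simp
      _ = p ^ (n * (n * M)) := by rw [← pow_mul]
  refine ⟨Finite.of_injective φ hφ, (Nat.card_le_card_of_injective φ hφ).trans ?_⟩
  rw [Nat.card_fun, Nat.card_prod, Nat.card_fin, Nat.card_fin]
  calc Nat.card (BB p n M) ^ (n * M) ≤ (p ^ (n * (n * M))) ^ (n * M) :=
        Nat.pow_le_pow_left hB _
    _ = p ^ (n ^ 3 * M ^ 2) := by rw [← pow_mul]; congr 1; ring

end Pool.Agent.Y42.Cov
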