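import Pool.Agent.Y42.Cov.Wgt
import Pool.Agent.Y42.Cov.Uni
import Pool.Agent.H596R3.CovUp2

set_option autoImplicit false
set_option linter.all false

/-!
# Embedding groups of order `p ^ n` into one group of small order
-/

namespace Pool.Agent.Y42.Cov

open Pool.Agent.H596Q

/-- a group with a faithful polynomial function embeds into the automorphism group of
`BB p n M` -/
theorem embed_of_poly {p n M : ℕ} [hp : Fact p.Prime] {H A : Type} [Group H] [AddCommGroup A]
    (lam : H → A) (hA : ∀ a : A, p ^ n • a = 0) (hlam : ∀ g, lam g = 0 ↔ g = 1)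
    (B : Finset (H → A)) (hB : B.card ≤ M)
    (hcl : AddSubgroup.closure (B : Set (H → A)) = Wt lam) :
    ∃ f : H →* Au (BB p n M), Function.Injective f := by
  classical
  have hqX : ∀ v : H → A, p ^ n • v = 0 := fun v => by funext x; exact hA _
  obtain ⟨hWf, -⟩ := card_closure (p ^ n) (pow_ne_zero _ hp.out.ne_zero) hqX B (Wt lam) hcl.ge
  haveI := hWf
  have hBm : ∀ b ∈ B, b ∈ Wt lam := fun b hb => by
    rw [← hcl]; exact AddSubgroup.subset_closure hb
  let S : Finset (Wt lam) := B.attach.image fun b => ⟨b.1, hBm b.1 b.2⟩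
  have hS : S.card ≤ M := by
    refine Finset.card_image_le.trans ?_
    rw [Finset.card_attach]
    exact hB
  have himg : (Wt lam).subtype '' (S : Set (Wt lam)) = (B : Set (H → A)) := by
    ext x
    constructor
    · rintro ⟨y, hy, rfl⟩
      obtain ⟨b, -, rfl⟩ := Finset.mem_image.1 (Finset.mem_coe.1 hy)
      exact b.2
    · intro hx
      exact ⟨⟨x, hBm x hx⟩, Finset.mem_coe.2 (Finset.mem_image.2
        ⟨⟨x, hx⟩, Finset.mem_attach _ _, rfl⟩), rfl⟩
  have hSt : AddSubgroup.closure (S : Set (Wt lam)) = ⊤ := by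
    apply AddSubgroup.map_injective (Wt lam).subtype_injective
    rw [AddMonoidHom.map_closure, himg, hcl, ← AddMonoidHom.range_eq_map,
      AddSubgroup.range_subtype]
  obtain ⟨E, R, hER⟩ := summand (p := p) (n := n) (M := M) (W := Wt lam)
    (fun w => by apply Subtype.ext; exact hqX _) S hS hSt
  exact ⟨(ext E R hER).comp (rho lam), (ext_injective E R hER).comp (rho_injective lam hlam)⟩

/-- every group of order `p ^ n` and class less than `p` embeds into the automorphism group of
`BB p n (2 ^ (n + 2))` -/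
theorem embed_class {p n : ℕ} [hp : Fact p.Prime] {H : Type} [Group H]
    (hH : Nat.card H = p ^ n) (hc : (⊤ : Subgroup H).lowerCentralSeries (p - 1) = ⊥) :
    ∃ f : H →* Au (BB p n (2 ^ (n + 2))), Function.Injective f := by
  classical
  haveI : Finite H := Nat.finite_of_card_ne_zero (by
    rw [hH]; exact pow_ne_zero _ hp.out.ne_zero)
  have hex : ∃ c, (⊤ : Subgroup H).lowerCentralSeries c = ⊥ := ⟨p - 1, hc⟩
  rcases Nat.eq_zero_or_pos (Nat.find hex) with h0 | h0
  · have h1 := Nat.find_spec hex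
    rw [h0] at h1
    have h2 : (⊤ : Subgroup H) = ⊥ := h1
    refine ⟨1, ?_⟩
    intro x y _
    have hx : x ∈ (⊤ : Subgroup H) := Subgroup.mem_top x
    have hy : y ∈ (⊤ : Subgroup H) := Subgroup.mem_top y
    rw [h2, Subgroup.mem_bot] at hx hy
    rw [hx, hy]
  · obtain ⟨c, hcf⟩ : ∃ c, Nat.find hex = c + 1 := ⟨Nat.find hex - 1, by omega⟩
    have h1 : (⊤ : Subgroup H).lowerCentralSeries (c + 1) = ⊥ := by
      rw [← hcf]; exact Nat.find_spec hex
    have h2 : (⊤ : Subgroup H).lowerCentralSeries c ≠ ⊥ := Nat.find_min hex (by omega)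
    have h3 : c + 1 ≤ p - 1 := by rw [← hcf]; exact Nat.find_min' hex hc
    obtain ⟨A, _, lam, hA, hlam, hPD⟩ := exists_poly (lcsFilt (c + 1) h1) (q := p ^ n)
      (fun x => by rw [← hH]; exact pow_card_eq_one') (fun m hm hmn => by
        apply Nat.Coprime.pow_right
        exact Nat.Coprime.symm ((Nat.Prime.coprime_iff_not_dvd hp.out).2
          (fun h => by have := Nat.le_of_dvd (by omega) h; omega))) rfl
    obtain ⟨B, hB, hcl⟩ := few_wgt' hH c h1 h2 lam hPD
    exact embed_of_poly lam hA hlam B hB hcl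

/-- every group of order `p ^ n` and class at most `c < p` embeds into the automorphism group of
`BB p n ((n + c).choose n)` -/
theorem embed_choose {p n c : ℕ} [hp : Fact p.Prime] {H : Type} [Group H]
    (hH : Nat.card H = p ^ n) (hcp : c < p) (hc : (⊤ : Subgroup H).lowerCentralSeries c = ⊥) :
    ∃ f : H →* Au (BB p n ((n + c).choose n)), Function.Injective f := by
  classical
  haveI : Finite H := Nat.finite_of_card_ne_zero (by
    rw [hH]; exact pow_ne_zero _ hp.out.ne_zero)
  obtain ⟨A, _, lam, hA, hlam, hPD⟩ := exists_poly (lcsFilt c hc) (q := p ^ n)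
    (fun x => by rw [← hH]; exact pow_card_eq_one') (fun m hm hmn => by
      apply Nat.Coprime.pow_right
      exact Nat.Coprime.symm ((Nat.Prime.coprime_iff_not_dvd hp.out).2
        (fun h => by have := Nat.le_of_dvd (by omega) h; omega))) rfl
  obtain ⟨B, hB, hcl⟩ := few_gens' hH lam hPD
  exact embed_of_poly lam hA hlam B hB hcl

open Pool.Agent.H596R3.CovUp in
/-- The order of the wreath product. -/
theorem card_Wr (p n k : ℕ) (hp : p.Prime) :
    Nat.card (Fin n → Wr (Fin (p ^ k)) (Multiplicative (ZMod (p ^ n)))) =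
      ((p ^ n) ^ p ^ k * (p ^ k).factorial) ^ n := by
  have h1 : Nat.card (Wr (Fin (p ^ k)) (Multiplicative (ZMod (p ^ n)))) =
      (p ^ n) ^ p ^ k * (p ^ k).factorial := by
    rw [Nat.card_congr SemidirectProduct.equivProd, Nat.card_prod, Nat.card_fun,
      Nat.card_perm, Nat.card_fin]
    congr 2
    exact Nat.card_zmod _
  rw [Nat.card_fun, h1, Nat.card_fin]

open Pool.Agent.H596R3.CovUp in
/-- The bound with `p` in the exponent (proof copied from the starting file `UpperBound`). -/
theorem small (p n : ℕ) (hp : p.Prime) : ∃ (P : Type) (_ : Group P), Finite P ∧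
    Nat.card P ≤ p ^ (n * (n + 1) * p ^ ((n - 1) / 2)) ∧
      ∀ (H : Type) [Group H], Nat.card H = p ^ n → ∃ f : H →* P, Function.Injective f := by
  haveI : Fact p.Prime := ⟨hp⟩
  haveI : NeZero (p ^ n) := ⟨pow_ne_zero _ hp.ne_zero⟩
  haveI : Finite (Multiplicative (ZMod (p ^ n))) := inferInstanceAs (Finite (ZMod (p ^ n)))
  haveI hfW : Finite (Wr (Fin (p ^ ((n - 1) / 2))) (Multiplicative (ZMod (p ^ n)))) :=
    Finite.of_equiv _ SemidirectProduct.equivProd.symm
  let U := Fin n → Wr (Fin (p ^ ((n - 1) / 2))) (Multiplicative (ZMod (p ^ n)))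
  haveI : Finite U := Pi.finite
  obtain ⟨P⟩ : Nonempty (Sylow p U) := inferInstance
  refine ⟨P, inferInstance, inferInstance, ?_, ?_⟩
  · rw [Sylow.card_eq_multiplicity]
    apply Nat.pow_le_pow_right hp.pos
    have h1 : Nat.card U = ((p ^ n) ^ p ^ ((n - 1) / 2) * (p ^ ((n - 1) / 2)).factorial) ^ n :=
      card_Wr p n _ hp
    rw [h1, Nat.factorization_pow, Finsupp.smul_apply, smul_eq_mul,
      Nat.factorization_mul (pow_ne_zero _ (pow_ne_zero _ hp.ne_zero)) (Nat.factorial_ne_zero _),
      Finsupp.add_apply, ← pow_mul, hp.factorization_pow, Finsupp.single_eq_same, mul_assoc]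
    apply Nat.mul_le_mul_left
    have h2 : ((p ^ ((n - 1) / 2)).factorial).factorization p ≤ p ^ ((n - 1) / 2) := by
      refine (Nat.factorization_factorial_le_div_pred hp _).trans (Nat.div_le_self _ _)
    calc n * p ^ ((n - 1) / 2) + ((p ^ ((n - 1) / 2)).factorial).factorization p
        ≤ n * p ^ ((n - 1) / 2) + p ^ ((n - 1) / 2) := by omega
      _ = (n + 1) * p ^ ((n - 1) / 2) := by ring
  · intro H _ hH
    haveI : Finite H := Nat.finite_of_card_ne_zero (by rw [hH]; exact pow_ne_zero _ hp.ne_zero)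
    obtain ⟨Θ, hΘ⟩ := exists_emb hH
    have hpH : IsPGroup p H := IsPGroup.of_card hH
    have hr : IsPGroup p Θ.range := hpH.of_surjective Θ.rangeRestrict Θ.rangeRestrict_surjective
    obtain ⟨Q, hQ⟩ := hr.exists_le_sylow
    let e : Q ≃* P := Sylow.equiv Q P
    let f : H →* P := e.toMonoidHom.comp ((Subgroup.inclusion hQ).comp Θ.rangeRestrict)
    refine ⟨f, ?_⟩
    intro a b hab
    have h1 := e.injective hab
    have h2 := Subgroup.inclusion_injective hQ h1
    have h3 : Θ a = Θ b := congrArg Subtype.val h2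
    exact hΘ h3

end Pool.Agent.Y42.Cov
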