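import Pool.Agent.Y42.Cov.Gen

set_option autoImplicit false
set_option linter.all false

/-!
# The translation module of a polynomial function: a count with weights

If `G` has order `p ^ n` and nilpotency class at most `c`, and all `(c + 1)`-fold differences of
`f : G → A` vanish, then the translates of `f` generate a group with at most `2 ^ (n + 2)`
generators.
-/

open scoped commutatorElement

namespace Pool.Agent.Y42.Cov

open Pool.Agent.H596Q

section

variable {G A : Type} [Group G] [AddCommGroup A]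

theorem PDU_zero' {U : AddSubgroup (G → A)} (d : ℕ) : PDU U d (0 : G → A) := by
  induction d with
  | zero => exact U.zero_mem
  | succ d ih => intro g; rw [map_zero, sub_zero]; exact ih

theorem PDU_add {U : AddSubgroup (G → A)} (d : ℕ) :
    ∀ f g : G → A, PDU U d f → PDU U d g → PDU U d (f + g) := by
  induction d with
  | zero => intro f g hf hg; exact U.add_mem hf hg
  | succ d ih =>
    intro f g hf hg x
    have e : tr x (f + g) - (f + g) = (tr x f - f) + (tr x g - g) := by rw [map_add]; abel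
    rw [e]
    exact ih _ _ (hf x) (hg x)

theorem PDU_neg {U : AddSubgroup (G → A)} (d : ℕ) : ∀ f : G → A, PDU U d f → PDU U d (-f) := by
  induction d with
  | zero => intro f hf; exact U.neg_mem hf
  | succ d ih =>
    intro f hf x
    have e : tr x (-f) - (-f) = -(tr x f - f) := by rw [map_neg]; abel
    rw [e]
    exact ih _ (hf x)

theorem PDU_tr {U : AddSubgroup (G → A)} (hU : Stab U) (d : ℕ) :
    ∀ (g : G) (f : G → A), PDU U d f → PDU U d (tr g f) := by
  induction d with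
  | zero => intro g f hf; exact hU g f hf
  | succ d ih =>
    intro g f hf x
    have e : tr x (tr g f) - tr g f = tr g (tr (g⁻¹ * x * g) f - f) := by
      rw [map_sub, ← tr_mul, ← tr_mul]
      congr 2
      group
    rw [e]
    exact ih _ _ (hf _)

theorem PDU_sub {U : AddSubgroup (G → A)} (d : ℕ) (f g : G → A) (hf : PDU U d f)
    (hg : PDU U d g) : PDU U d (f - g) := by
  rw [sub_eq_add_neg]
  exact PDU_add d _ _ hf (PDU_neg d _ hg)

theorem PDU_succ {U : AddSubgroup (G → A)} (hU : Stab U) (d : ℕ) :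
    ∀ f : G → A, PDU U d f → PDU U (d + 1) f := by
  induction d with
  | zero => intro f hf g; exact U.sub_mem (hU g f hf) hf
  | succ d ih => intro f hf g; exact ih _ (hf g)

theorem PDU_le {U : AddSubgroup (G → A)} (hU : Stab U) {d e : ℕ} (h : d ≤ e) (f : G → A)
    (hf : PDU U d f) : PDU U e f := by
  induction h with
  | refl => exact hf
  | step _ ih => exact PDU_succ hU _ _ ih

variable (G A) in
/-- the elements `z` such that `z - 1` lowers the degree by `w` -/
def Dw (w : ℕ) : Subgroup G where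
  carrier := {z | ∀ U : AddSubgroup (G → A), Stab U → ∀ (d : ℕ) (v : G → A),
    PDU U (d + w) v → PDU U d (tr z v - v)}
  mul_mem' := by
    intro x y hx hy U hU d v hv
    have e : tr (x * y) v - v = tr x (tr y v - v) + (tr x v - v) := by
      rw [map_sub, tr_mul]; abel
    rw [e]
    exact PDU_add d _ _ (PDU_tr hU d _ _ (hy U hU d v hv)) (hx U hU d v hv)
  one_mem' := by
    intro U hU d v hv
    rw [tr_one, sub_self]
    exact PDU_zero' d
  inv_mem' := by
    intro x hx U hU d v hv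
    have e : tr x⁻¹ v - v = - tr x⁻¹ (tr x v - v) := by
      rw [map_sub, ← tr_mul, inv_mul_cancel, tr_one]; abel
    rw [e]
    exact PDU_neg d _ (PDU_tr hU d _ _ (hx U hU d v hv))

theorem mem_Dw {w : ℕ} {z : G} : z ∈ Dw G A w ↔ ∀ U : AddSubgroup (G → A), Stab U →
    ∀ (d : ℕ) (v : G → A), PDU U (d + w) v → PDU U d (tr z v - v) := Iff.rfl

theorem comm_mem_Dw {a b : ℕ} {x y : G} (hx : x ∈ Dw G A a) (hy : y ∈ Dw G A b) :
    ⁅x, y⁆ ∈ Dw G A (a + b) := by
  rw [mem_Dw] at hx hy ⊢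
  intro U hU d v hv
  set v' := tr (x⁻¹ * y⁻¹) v with hv'
  have hPD : PDU U (d + (a + b)) v' := PDU_tr hU _ _ _ hv
  have e : tr ⁅x, y⁆ v - v =
      (tr x (tr y v' - v') - (tr y v' - v')) - (tr y (tr x v' - v') - (tr x v' - v')) := by
    have e1 : tr ⁅x, y⁆ v = tr x (tr y v') := by
      rw [hv', ← tr_mul, ← tr_mul, commutatorElement_def]
      congr 2
      group
    have e2 : v = tr y (tr x v') := by
      rw [hv', ← tr_mul, ← tr_mul]
      have e3 : y * x * (x⁻¹ * y⁻¹) = 1 := by group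
      rw [← mul_assoc] at e3 ⊢
      rw [e3, tr_one]
    rw [e1]
    conv_lhs => rw [e2]
    rw [map_sub, map_sub]
    abel
  rw [e]
  refine PDU_sub d _ _ ?_ ?_
  · refine hx U hU d _ (hy U hU (d + a) _ ?_)
    rwa [add_assoc]
  · refine hy U hU d _ (hx U hU (d + b) _ ?_)
    rwa [add_assoc, add_comm b a]

theorem lcs_le_Dw (i : ℕ) : (⊤ : Subgroup G).lowerCentralSeries i ≤ Dw G A (i + 1) := by
  induction i with
  | zero =>
    intro z _
    rw [mem_Dw]
    intro U hU d v hv
    exact hv z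
  | succ i ih =>
    rw [Subgroup.lowerCentralSeries_succ, Subgroup.commutator_le]
    intro x hx y _
    have hy : y ∈ Dw G A 1 := by
      rw [mem_Dw]
      intro U hU d v hv
      exact hv y
    exact comm_mem_Dw (ih hx) hy

/-- a step down: enlarge a normal subgroup of index `p ^ (j + 1)` by an element of a subgroup that
is central modulo it -/
theorem exists_step' [Finite G] {p j : ℕ} [hp : Fact p.Prime] (N L : Subgroup G) [hN : N.Normal]
    (hind : N.index = p ^ (j + 1)) (hL : ¬ L ≤ N) (hc : ∀ x ∈ L, ∀ g : G, ⁅x, g⁆ ∈ N) :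
    ∃ (N' : Subgroup G) (z : G), N'.Normal ∧ N'.index = p ^ j ∧ z ∈ L ∧ N ≤ N' ∧
      (∀ y ∈ N', ∃ (k : ℕ) (t : G), t ∈ N ∧ y = z ^ k * t) ∧ ∀ y ∈ N', ∀ g : G, ⁅y, g⁆ ∈ N := by
  have hcard : Nat.card (G ⧸ N) = p ^ (j + 1) := by rw [← Subgroup.index_eq_card]; exact hind
  haveI : Finite (G ⧸ N) := inferInstance
  have hpg : IsPGroup p (G ⧸ N) := IsPGroup.of_card hcard
  obtain ⟨x, hxL, hxN⟩ := Set.not_subset.1 hL
  obtain ⟨m, hm⟩ := (IsPGroup.iff_orderOf.1 hpg) (QuotientGroup.mk' N x)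
  have hm0 : m ≠ 0 := by
    rintro rfl
    rw [pow_zero, orderOf_eq_one_iff] at hm
    exact hxN ((QuotientGroup.eq_one_iff x).1 hm)
  obtain ⟨m', rfl⟩ : ∃ m', m = m' + 1 := ⟨m - 1, by omega⟩
  have hz : orderOf (QuotientGroup.mk' N (x ^ p ^ m')) = p := by
    rw [map_pow, orderOf_pow' _ (pow_ne_zero _ hp.out.ne_zero), hm,
      Nat.gcd_eq_right (pow_dvd_pow p (Nat.le_succ m')), pow_succ',
      Nat.mul_div_cancel _ (pow_pos hp.out.pos _)]
  have hzL : x ^ p ^ m' ∈ L := L.pow_mem hxL _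
  generalize x ^ p ^ m' = z at hz hzL
  have hcen : QuotientGroup.mk' N z ∈ Subgroup.center (G ⧸ N) := by
    rw [Subgroup.mem_center_iff]
    intro g
    obtain ⟨g, rfl⟩ := QuotientGroup.mk'_surjective N g
    have h1 : QuotientGroup.mk' N ⁅z, g⁆ = 1 := (QuotientGroup.eq_one_iff _).2 (hc z hzL g)
    rw [map_commutatorElement, commutatorElement_eq_one_iff_mul_comm] at h1
    exact h1.symm
  have hzle : Subgroup.zpowers (QuotientGroup.mk' N z) ≤ Subgroup.center (G ⧸ N) := by
    rw [Subgroup.zpowers_le]; exact hcen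
  haveI hzn : (Subgroup.zpowers (QuotientGroup.mk' N z)).Normal := by
    constructor
    intro a ha g
    have h1 := (Subgroup.mem_center_iff.1 (hzle ha)) g
    rw [h1, mul_inv_cancel_right]
    exact ha
  refine ⟨(Subgroup.zpowers (QuotientGroup.mk' N z)).comap (QuotientGroup.mk' N), z, inferInstance,
    ?_, hzL, ?_, ?_, ?_⟩
  · rw [Subgroup.index_comap_of_surjective _ (QuotientGroup.mk'_surjective N)]
    have h2 := Subgroup.card_mul_index (Subgroup.zpowers (QuotientGroup.mk' N z))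
    rw [Nat.card_zpowers, hz, hcard, pow_succ'] at h2
    exact Nat.eq_of_mul_eq_mul_left hp.out.pos h2
  · intro y hy
    rw [Subgroup.mem_comap, show QuotientGroup.mk' N y = 1 from (QuotientGroup.eq_one_iff y).2 hy]
    exact Subgroup.one_mem _
  · intro y hy
    have h3 : QuotientGroup.mk' N y ∈ Subgroup.zpowers (QuotientGroup.mk' N z) := hy
    rw [← mem_powers_iff_mem_zpowers] at h3
    obtain ⟨k, hk⟩ := h3
    refine ⟨k, (z ^ k)⁻¹ * y, ?_, by group⟩
    rw [← QuotientGroup.eq]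
    have h4 : (QuotientGroup.mk' N) (z ^ k) = (QuotientGroup.mk' N) y := by
      rw [map_pow]; exact hk
    exact h4
  · intro y hy g
    have h5 : QuotientGroup.mk' N y ∈ Subgroup.center (G ⧸ N) := hzle hy
    rw [← QuotientGroup.eq_one_iff]
    show QuotientGroup.mk' N ⁅y, g⁆ = 1
    rw [map_commutatorElement, commutatorElement_eq_one_iff_mul_comm]
    exact ((Subgroup.mem_center_iff.1 h5) _).symm

theorem arith1 {X Y P Q T : ℕ} (hT : 2 ≤ T) (hX : X * T ^ 2 ≤ P * Q * (T - 1))
    (hY : Y * T ^ 2 * T ≤ P * (2 * Q) * (T - 1)) :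
    (X + Y) * T ^ 2 ≤ P * (2 * Q) * (T - 1) := by
  have h1 : Y * T ^ 2 * 2 ≤ Y * T ^ 2 * T := Nat.mul_le_mul_left _ hT
  have h2 : P * (2 * Q) * (T - 1) = 2 * (P * Q * (T - 1)) := by ring
  rw [h2] at hY ⊢
  rw [add_mul]
  omega

theorem arith2 {X Y P Q T : ℕ} (hT : 2 ≤ T) (hX : X * T ^ 2 ≤ P * Q * (T - 1))
    (hY : Y * (2 * T) ^ 2 * (2 * T) ≤ P * (2 * Q) * (2 * T - 1)) :
    (X + Y) * (2 * T) ^ 2 ≤ P * (2 * Q) * (2 * T - 1) := by
  have h0 : 0 < 2 * T := by omega
  have h1 : Y * (2 * T) ^ 2 ≤ P * (2 * Q) := by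
    have h3 : P * (2 * Q) * (2 * T - 1) ≤ P * (2 * Q) * (2 * T) :=
      Nat.mul_le_mul_left _ (Nat.sub_le _ _)
    exact Nat.le_of_mul_le_mul_right (hY.trans h3) h0
  have h2 : X * (2 * T) ^ 2 ≤ 4 * (P * Q * (T - 1)) := by
    have e : X * (2 * T) ^ 2 = 4 * (X * T ^ 2) := by ring
    rw [e]
    omega
  obtain ⟨s, rfl⟩ : ∃ s, T = s + 1 := ⟨T - 1, by omega⟩
  have e1 : s + 1 - 1 = s := by omega
  have e2 : 2 * (s + 1) - 1 = 2 * s + 1 := by omega
  rw [e1] at h2
  rw [e2]
  have e3 : P * (2 * Q) * (2 * s + 1) = 4 * (P * Q * s) + P * (2 * Q) := by ring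
  rw [e3, add_mul]
  omega

/-- the conclusion for `v` modulo `U` -/
def Few (U : AddSubgroup (G → A)) (v : G → A) (B : Finset (G → A)) : Prop :=
  (∀ b ∈ B, b ∈ Wt v) ∧ Wt v ≤ AddSubgroup.closure (B : Set (G → A)) ⊔ U

theorem few_single (U : AddSubgroup (G → A)) (v : G → A) (h : ∀ g : G, tr g v - v ∈ U) :
    Few U v {v} := by
  refine ⟨by simpa using self_mem_Wt v, ?_⟩
  unfold Wt
  rw [AddSubgroup.closure_le]
  rintro w ⟨g, rfl⟩
  have e : tr g v = v + (tr g v - v) := by abel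
  show tr g v ∈ _
  rw [e]
  exact AddSubgroup.add_mem_sup (AddSubgroup.subset_closure (by simp)) (h g)

theorem few_union [DecidableEq (G → A)] {U : AddSubgroup (G → A)} {v : G → A} {z : G}
    {B B₁ : Finset (G → A)} (h : Few (U ⊔ Wt (tr z v - v)) v B) (h₁ : Few U (tr z v - v) B₁) :
    Few U v (B ∪ B₁) := by
  obtain ⟨hBW, hWB⟩ := h
  obtain ⟨hBW₁, hWB₁⟩ := h₁
  constructor
  · intro b hb
    rcases Finset.mem_union.1 hb with hb | hb
    · exact hBW b hb
    · have h1 : Wt (tr z v - v) ≤ Wt v :=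
        Wt_le (stab_Wt v) (AddSubgroup.sub_mem _ (tr_mem_Wt v z) (self_mem_Wt v))
      exact h1 (hBW₁ b hb)
  · refine hWB.trans ?_
    rw [Finset.coe_union, AddSubgroup.closure_union]
    refine sup_le (le_sup_left.trans le_sup_left) (sup_le le_sup_right (hWB₁.trans ?_))
    exact sup_le (le_sup_right.trans le_sup_left) le_sup_right

theorem triv_step {N N' : Subgroup G} (hN' : N'.Normal) {z : G}
    (hz : ∀ y ∈ N', ∃ (k : ℕ) (t : G), t ∈ N ∧ y = z ^ k * t) {U : AddSubgroup (G → A)}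
    (hU : Stab U) {v : G → A} (hv : ∀ y ∈ N, ∀ g : G, tr y (tr g v) - tr g v ∈ U) :
    (∀ y ∈ N', ∀ g : G, tr y (tr g v) - tr g v ∈ U ⊔ Wt (tr z v - v)) ∧
      ∀ y ∈ N, ∀ g : G, tr y (tr g (tr z v - v)) - tr g (tr z v - v) ∈ U := by
  have hUW : Stab (U ⊔ Wt (tr z v - v)) := stab_sup hU (stab_Wt _)
  have key : ∀ y ∈ N', tr y v - v ∈ U ⊔ Wt (tr z v - v) := by
    intro y hy
    obtain ⟨k, t, ht, rfl⟩ := hz y hy
    have e : tr (z ^ k * t) v - v = tr (z ^ k) (tr t v - v) + (tr (z ^ k) v - v) := by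
      rw [map_sub, tr_mul]; abel
    rw [e]
    have h1 := hv t ht 1
    rw [tr_one] at h1
    exact AddSubgroup.add_mem_sup (hU _ _ h1) (tr_pow_sub_mem z v k)
  constructor
  · intro y hy g
    have h1 : g⁻¹ * y * g ∈ N' := by
      have := hN'.conj_mem y hy g⁻¹
      rwa [inv_inv] at this
    have e : tr y (tr g v) - tr g v = tr g (tr (g⁻¹ * y * g) v - v) := by
      rw [map_sub, ← tr_mul, ← tr_mul]
      congr 2
      group
    rw [e]
    exact hUW _ _ (key _ h1)
  · intro y hy g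
    have e : tr y (tr g (tr z v - v)) - tr g (tr z v - v) =
        (tr y (tr (g * z) v) - tr (g * z) v) - (tr y (tr g v) - tr g v) := by
      rw [map_sub, map_sub, tr_mul]; abel
    rw [e]
    exact U.sub_mem (hv y hy _) (hv y hy _)

/-- the part of the module which comes from `z - 1` -/
theorem inner_step {j c d : ℕ} {z : G} (hzL : z ∈ (⊤ : Subgroup G).lowerCentralSeries c)
    {U : AddSubgroup (G → A)} (hU : Stab U) {v : G → A} (hPD : PDU U (d + 1) v)
    (ih : ∀ m, m < d → PDU U (m + 1) (tr z v - v) → ∃ B : Finset (G → A),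
      B.card * (2 ^ (c + 1)) ^ 2 ≤ 2 ^ m * 2 ^ (j + 3) * (2 ^ (c + 1) - 1) ∧
        Few U (tr z v - v) B) :
    ∃ B : Finset (G → A), B.card * (2 ^ (c + 1)) ^ 2 * 2 ^ (c + 1) ≤
      2 ^ d * (2 * 2 ^ (j + 2)) * (2 ^ (c + 1) - 1) ∧ Few U (tr z v - v) B := by
  have hzD := (mem_Dw (A := A)).1 (lcs_le_Dw (A := A) c hzL)
  by_cases h : c + 1 ≤ d
  · obtain ⟨m, rfl⟩ : ∃ m, d = m + (c + 1) := ⟨d - (c + 1), by omega⟩
    have h1 : PDU U (m + 1) (tr z v - v) := by
      apply hzD U hU
      have e : m + 1 + (c + 1) = m + (c + 1) + 1 := by omega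
      rwa [e]
    obtain ⟨B, hB, hF⟩ := ih m (by omega) h1
    refine ⟨B, ?_, hF⟩
    calc B.card * (2 ^ (c + 1)) ^ 2 * 2 ^ (c + 1)
        ≤ 2 ^ m * 2 ^ (j + 3) * (2 ^ (c + 1) - 1) * 2 ^ (c + 1) := Nat.mul_le_mul_right _ hB
      _ = 2 ^ (m + (c + 1)) * (2 * 2 ^ (j + 2)) * (2 ^ (c + 1) - 1) := by
          rw [pow_add 2 m (c + 1), show j + 3 = (j + 2) + 1 from rfl, pow_succ 2 (j + 2)]
          ring
  · have h1 : PDU U 0 (tr z v - v) := by
      apply hzD U hU
      exact PDU_le hU (by omega) _ hPD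
    refine ⟨∅, by simp, by simp, ?_⟩
    exact (Wt_le hU h1).trans le_sup_right

theorem few_wgt [Finite G] {p : ℕ} [hp : Fact p.Prime] (j : ℕ) : ∀ (c : ℕ) (N : Subgroup G),
    N.Normal → N.index = p ^ (j + 1) → (⊤ : Subgroup G).lowerCentralSeries (c + 1) ≤ N →
    ¬ (⊤ : Subgroup G).lowerCentralSeries c ≤ N → ∀ (U : AddSubgroup (G → A)), Stab U →
    ∀ (d : ℕ) (v : G → A), (∀ y ∈ N, ∀ g : G, tr y (tr g v) - tr g v ∈ U) →
    PDU U (d + 1) v →
    ∃ B : Finset (G → A), B.card * (2 ^ (c + 1)) ^ 2 ≤ 2 ^ d * 2 ^ (j + 3) * (2 ^ (c + 1) - 1) ∧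
      Few U v B := by
  classical
  induction j with
  | zero =>
    intro c N hN hind h1 h0 U hU d
    induction d using Nat.strong_induction_on with
    | _ d ihd =>
      intro v hv hPD
      obtain ⟨N', z, hN', hind', hzL, hNN', hz, hcm⟩ := exists_step' (p := p) (j := 0) N
        ((⊤ : Subgroup G).lowerCentralSeries c) hind h0 (fun x hx g => h1 (by
          rw [Subgroup.lowerCentralSeries_succ]
          exact Subgroup.commutator_mem_commutator hx (Subgroup.mem_top g)))
      rw [pow_zero, Subgroup.index_eq_one] at hind'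
      have hc0 : c = 0 := by
        by_contra hc
        apply h0
        have h2 : (⊤ : Subgroup G).lowerCentralSeries 1 ≤ N := by
          rw [Subgroup.lowerCentralSeries_succ, Subgroup.commutator_le]
          intro x _ y _
          exact hcm x (by rw [hind']; exact Subgroup.mem_top x) y
        exact (Subgroup.lowerCentralSeries_antitone _ (by omega)).trans h2
      subst hc0
      obtain ⟨hv1, hv2⟩ := triv_step hN' hz hU hv
      obtain ⟨B₁, hB₁, hF₁⟩ := inner_step (j := 0) hzL hU hPD (fun m hm h => ihd m hm _ hv2 h)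
      refine ⟨{v} ∪ B₁, ?_, few_union (few_single _ v ?_) hF₁⟩
      · have h3 : ({v} ∪ B₁ : Finset (G → A)).card ≤ 1 + B₁.card := by
          refine (Finset.card_union_le _ _).trans ?_
          rw [Finset.card_singleton]
        have h4 : 1 ≤ 2 ^ d := Nat.one_le_two_pow
        have h5 : B₁.card ≤ 2 ^ d := by
          norm_num at hB₁
          omega
        refine (Nat.mul_le_mul_right _ h3).trans ?_
        norm_num
        omega
      · intro g
        have h3 := hv1 g (by rw [hind']; exact Subgroup.mem_top g) 1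
        rwa [tr_one] at h3
  | succ j ihj =>
    intro c N hN hind h1 h0 U hU d
    induction d using Nat.strong_induction_on with
    | _ d ihd =>
      intro v hv hPD
      obtain ⟨N', z, hN', hind', hzL, hNN', hz, hcm⟩ := exists_step' (p := p) (j := j + 1) N
        ((⊤ : Subgroup G).lowerCentralSeries c) hind h0 (fun x hx g => h1 (by
          rw [Subgroup.lowerCentralSeries_succ]
          exact Subgroup.commutator_mem_commutator hx (Subgroup.mem_top g)))
      obtain ⟨hv1, hv2⟩ := triv_step hN' hz hU hv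
      obtain ⟨B₁, hB₁, hF₁⟩ := inner_step (j := j + 1) hzL hU hPD
        (fun m hm h => ihd m hm _ hv2 h)
      have hUW : Stab (U ⊔ Wt (tr z v - v)) := stab_sup hU (stab_Wt _)
      have hT : 2 ≤ 2 ^ (c + 1) := by
        calc 2 = 2 ^ 1 := rfl
          _ ≤ 2 ^ (c + 1) := Nat.pow_le_pow_right (by norm_num) (by omega)
      have e3 : 2 ^ (j + 1 + 3) = 2 * 2 ^ (j + 3) := by ring
      by_cases hcN : (⊤ : Subgroup G).lowerCentralSeries c ≤ N'
      · have hc0 : c ≠ 0 := by
          rintro rfl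
          have h5 : N' = ⊤ := top_le_iff.1 hcN
          rw [h5, Subgroup.index_top] at hind'
          have h8 : 1 < p ^ (j + 1) := Nat.one_lt_pow (Nat.succ_ne_zero j) hp.out.one_lt
          omega
        obtain ⟨c, rfl⟩ : ∃ c', c = c' + 1 := ⟨c - 1, by omega⟩
        have h6 : ¬ (⊤ : Subgroup G).lowerCentralSeries c ≤ N' := by
          intro h7
          apply h0
          rw [Subgroup.lowerCentralSeries_succ, Subgroup.commutator_le]
          intro x hx y _
          exact hcm x (h7 hx) y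
        obtain ⟨B, hB, hF⟩ := ihj c N' hN' hind' hcN h6 _ hUW d v hv1
          (PDU_mono le_sup_left _ _ hPD)
        refine ⟨B ∪ B₁, ?_, few_union hF hF₁⟩
        have hT' : 2 ≤ 2 ^ (c + 1) := by
          calc 2 = 2 ^ 1 := rfl
            _ ≤ 2 ^ (c + 1) := Nat.pow_le_pow_right (by norm_num) (by omega)
        have e4 : 2 ^ (c + 1 + 1) = 2 * 2 ^ (c + 1) := by ring
        rw [e4] at hB₁ ⊢
        rw [e3]
        refine (Nat.mul_le_mul_right _ (Finset.card_union_le _ _)).trans ?_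
        exact arith2 hT' hB hB₁
      · obtain ⟨B, hB, hF⟩ := ihj c N' hN' hind' (h1.trans hNN') hcN _ hUW d v hv1
          (PDU_mono le_sup_left _ _ hPD)
        refine ⟨B ∪ B₁, ?_, few_union hF hF₁⟩
        rw [e3]
        refine (Nat.mul_le_mul_right _ (Finset.card_union_le _ _)).trans ?_
        exact arith1 hT hB hB₁

/-- The translates of a polynomial function of degree at most `c` on a group of order `p ^ n` and
class at most `c` generate a group with at most `2 ^ (n + 2)` generators. -/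
theorem few_wgt' [Finite G] {p n : ℕ} [hp : Fact p.Prime] (hG : Nat.card G = p ^ n) (c : ℕ)
    (hc : (⊤ : Subgroup G).lowerCentralSeries (c + 1) = ⊥)
    (hc' : (⊤ : Subgroup G).lowerCentralSeries c ≠ ⊥)
    (v : G → A) (hv : PD (c + 1 + 1) v) :
    ∃ B : Finset (G → A), B.card ≤ 2 ^ (n + 2) ∧
      AddSubgroup.closure (B : Set (G → A)) = Wt v := by
  have hn : n ≠ 0 := by
    rintro rfl
    apply hc'
    rw [pow_zero] at hG
    exact (Subgroup.eq_bot_of_card_le _ (by
      have h1 := Subgroup.card_le_card_group ((⊤ : Subgroup G).lowerCentralSeries c)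
      omega))
  obtain ⟨j, rfl⟩ : ∃ j, n = j + 1 := ⟨n - 1, by omega⟩
  obtain ⟨B, h1, h2, h3⟩ := few_wgt (p := p) (A := A) j c (⊥ : Subgroup G) inferInstance
    (by rw [Subgroup.index_bot]; exact hG) hc.le (by rwa [le_bot_iff]) ⊥ stab_bot (c + 1) v (by
      intro y hy g
      rw [Subgroup.mem_bot] at hy
      rw [hy, tr_one, sub_self]
      exact AddSubgroup.zero_mem _) (PDU_bot _ _ hv)
  refine ⟨B, ?_, le_antisymm ?_ ?_⟩
  · have h4 : B.card * (2 ^ (c + 1)) ^ 2 ≤ 2 ^ (j + 1 + 2) * (2 ^ (c + 1)) ^ 2 := by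
      refine h1.trans ?_
      calc 2 ^ (c + 1) * 2 ^ (j + 3) * (2 ^ (c + 1) - 1)
          ≤ 2 ^ (c + 1) * 2 ^ (j + 3) * 2 ^ (c + 1) := Nat.mul_le_mul_left _ (Nat.sub_le _ _)
        _ = 2 ^ (j + 1 + 2) * (2 ^ (c + 1)) ^ 2 := by ring
    exact Nat.le_of_mul_le_mul_right h4 (by positivity)
  · rw [AddSubgroup.closure_le]
    exact h2
  · rwa [sup_bot_eq] at h3

end

end Pool.Agent.Y42.Cov
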